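import Pool.Agent.H9.K2.Stmts2
import Pool.Agent.H12.KA.WI2
import Pool.Agent.H12.KA.WIN
import Pool.Agent.H33.K2.AP3
import Pool.Agent.H44.KA.GRO
import Pool.Agent.H64.KA.TUB
import Pool.Agent.H68.K2.AP2
import Pool.Agent.H70.K2.AP4
import Pool.Agent.H97.K2.AP5

/-!
# Maximal families: the operations preserve maximality, at linear cost
-/

set_option autoImplicit false

namespace Pool.KA

open Finset Real
open Pool.Agent.H49.Ent Pool.Agent.H32.Dense Pool.STK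

namespace MOP

variable {m J : ℕ}

/-- Entropy of the directions at scale `q`. -/
lemma D_le (F : Fam m J) {S : Type} (W : F.Ω → S) (q : ℕ) :
    CH F.p (F.D q) W ≤ m * (q * Real.log 2) + 2 * (m * Real.log 5) := by
  have h2 := tim_dig F.isLaw F.d 0 q W
  rw [Nat.zero_add] at h2
  have h3 := CH_le_vec F.isLaw.nonneg F.isLaw.sum_one (fun ω => fl 0 (F.d ω)) W
    (fun _ => (2 : ℝ)) (by
      intro ω ω' _ _ _ k
      have a1 := F.dir ω k
      have a2 := F.dir ω' k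
      have b1 : ∀ z : ℝ, |z| ≤ 1 → -1 ≤ ⌊z⌋ ∧ ⌊z⌋ ≤ 1 := by
        intro z hz
        rw [abs_le] at hz
        refine ⟨Int.le_floor.mpr (by push_cast; exact hz.1), ?_⟩
        have c1 := Int.floor_le z
        have c2 : (⌊z⌋ : ℝ) ≤ (1 : ℤ) := by
          push_cast
          linarith only [hz, c1, hz.2]
        exact_mod_cast c2
      obtain ⟨c1, c2⟩ := b1 _ a1
      obtain ⟨c3, c4⟩ := b1 _ a2
      have e1 : ∀ v, fl 0 (F.d v) k = ⌊F.d v k⌋ := by
        intro v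
        change ⌊(2 : ℝ) ^ 0 * F.d v k⌋ = ⌊F.d v k⌋
        rw [pow_zero, one_mul]
      rw [e1, e1]
      have c5 : |⌊F.d ω k⌋ - ⌊F.d ω' k⌋| ≤ 2 := by
        rw [abs_le]
        constructor <;> omega
      exact_mod_cast c5)
  have h4 : Ex F.p (fun _ => Real.log (2 * 2 + 1)) = Real.log 5 := by
    rw [Ex_const F.isLaw.sum_one]
    norm_num
  rw [h4] at h3
  have h5 : CH F.p (F.D q) W = CH F.p (fun ω => fl q (F.d ω)) W := rfl
  rw [h5]
  linarith only [h2, h3]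

/-- Side information of small entropy. -/
lemma cnd_Tm (F : Fam m J) {e c : ℝ} (he : F.Tm e) {κ : Type} (z : F.Ω → κ)
    (hz : CH F.p z F.Z ≤ c) : (F.cnd z).Tm (e + c) := by
  have hp := F.isLaw.nonneg
  have b := CH_bayes hp F.T z (fun ω => (F.l ω, F.Z ω))
  have h1 : CH F.p z (fun ω => (F.l ω, F.Z ω)) ≤ CH F.p z F.Z := by
    refine CH_mono_cond hp ?_
    intro ω ω' _ _ h
    exact (Prod.ext_iff.1 h).2
  have h2 : 0 ≤ CH F.p z (fun ω => (F.T ω, (F.l ω, F.Z ω))) := CH_nonneg hp _ _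
  have h3 : CH F.p F.T (fun ω => (z ω, (F.l ω, F.Z ω))) =
      CH F.p F.T (fun ω => (F.l ω, (z ω, F.Z ω))) := by
    refine CH_congr hp ?_ ?_ ?_ ?_
    · intro ω ω' _ _ h
      exact (Prod.ext_iff.1 h).1
    · intro ω ω' _ _ h
      exact (Prod.ext_iff.1 h).1
    · intro ω ω' _ _ h
      simp only [Prod.mk.injEq] at h ⊢
      exact ⟨h.2.1, h.1, h.2.2⟩
    · intro ω ω' _ _ h
      simp only [Prod.mk.injEq] at h ⊢
      exact ⟨h.2.1, h.1, h.2.2⟩
  unfold Fam.Tm at he ⊢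
  change (J : ℝ) * Real.log 2 - (e + c) ≤ CH F.p F.T (fun ω => (F.l ω, (z ω, F.Z ω)))
  rw [← h3]
  linarith only [he, hz, b, h1, h2]

lemma cnd_Ga (F : Fam m J) {c a : ℝ} (ha : 0 ≤ a) {κ : Type} (z : F.Ω → κ)
    (hz : CH F.p z F.Z ≤ c) : F.Ga a - c ≤ (F.cnd z).Ga a := by
  have hp := F.isLaw.nonneg
  have b := CH_bayes hp (F.D J) z F.Z
  have h1 : 0 ≤ CH F.p z (fun ω => (F.D J ω, F.Z ω)) := CH_nonneg hp _ _
  have h2 : CH (F.cnd z).p ((F.cnd z).X J) (F.cnd z).W ≤ CH F.p (F.X J) F.W := by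
    refine CH_mono_cond hp ?_
    intro ω ω' _ _ h
    change (F.T ω, (z ω, F.Z ω)) = (F.T ω', (z ω', F.Z ω')) at h
    change (F.T ω, F.Z ω) = (F.T ω', F.Z ω')
    simp only [Prod.mk.injEq] at h ⊢
    exact ⟨h.1, h.2.2⟩
  have h3 := mul_le_mul_of_nonneg_left h2 ha
  unfold Fam.Ga
  have h4 : CH (F.cnd z).p ((F.cnd z).D J) (F.cnd z).Z =
      CH F.p (F.D J) (fun ω => (z ω, F.Z ω)) := rfl
  linarith only [hz, b, h1, h3, h4]

end MOP

open MOP

theorem mop_thm (hO : AOPStmt) : MOPStmt := by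
  intro m a R ha hR
  obtain ⟨C₀, hC₀, hO⟩ := hO m
  obtain ⟨C₁, hC₁, hW⟩ := wi2_thm m
  obtain ⟨C₂, hC₂, hU⟩ := tub_thm m
  obtain ⟨C₃, hC₃, hT⟩ := trc_thm m
  have hcc : 0 ≤ cc m := by
    unfold cc
    exact mul_nonneg (by positivity) (Real.log_nonneg (by norm_num))
  have hl2 : 0 < Real.log 2 := Real.log_pos (by norm_num)
  have hl5 : 0 ≤ (m : ℝ) * Real.log 5 := by positivity
  have ha0 : 0 ≤ a := by linarith only [ha]
  obtain ⟨L, hL⟩ : ∃ L : ℝ, L = m * Real.log 2 := ⟨_, rfl⟩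
  have hL0 : 0 ≤ L := by rw [hL]; positivity
  obtain ⟨B, hB⟩ : ∃ B : ℝ, B = C₀ + C₁ + C₂ + C₃ + cc m + 2 * (m * Real.log 5) := ⟨_, rfl⟩
  have hB0 : 0 ≤ B := by rw [hB]; positivity
  obtain ⟨K, hK⟩ : ∃ K : ℝ, K = 4 + 4 * a + a * L + 4 * a * B := ⟨_, rfl⟩
  have hK0 : 0 ≤ K := by rw [hK]; positivity
  refine ⟨2 * K, by positivity, ?_⟩
  intro J F τ c hJ hτ hc hc4 hτJ hF
  obtain ⟨hTm, hGa⟩ := hF
  have hp := F.isLaw.nonneg
  have hJ0 : (1 : ℝ) ≤ J := by exact_mod_cast hJ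
  have hτJ0 : 0 ≤ τ * J := by positivity
  have hcJ0 : 0 ≤ c * J := by positivity
  -- a common way to finish
  have fin : ∀ (J' : ℕ) (F' : Fam m J') (g : ℝ), 0 ≤ g → g ≤ c * J → (J' : ℝ) = J - g →
      F'.Tm (τ * J) → F.Ga a - K * (τ * J + g) + τ * J ≤ F'.Ga a →
      F'.Mx a R (2 * K * (τ + c)) := by
    intro J' F' g hg hgc hJ' h1 h2
    have h3 : (3 : ℝ) / 4 * J ≤ J' := by
      rw [hJ']
      nlinarith only [hgc, hc4]
    have h4 : (J' : ℝ) ≤ J := by
      rw [hJ']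
      linarith only [hg]
    have h5 : (4 : ℝ) ≤ K := by
      rw [hK]
      have : 0 ≤ a * L := by positivity
      have : 0 ≤ a * B := by positivity
      linarith
    have h6 : (τ + c) * (3 / 4 * J) ≤ (τ + c) * J' :=
      mul_le_mul_of_nonneg_left h3 (by linarith only [hτ, hc])
    have h7 : K * ((τ + c) * (3 / 4 * J)) ≤ K * ((τ + c) * J') :=
      mul_le_mul_of_nonneg_left h6 hK0
    have h8 : 4 * ((τ + c) * J) ≤ K * ((τ + c) * J) :=
      mul_le_mul_of_nonneg_right h5 (by positivity)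
    have h9 : K * g ≤ K * (c * J) := mul_le_mul_of_nonneg_left hgc hK0
    have h10 : R * J' ≤ R * J := mul_le_mul_of_nonneg_left h4 hR.le
    have h11 : 0 ≤ K * (τ * J) := by positivity
    have h12 : 0 ≤ K * (c * J) := by positivity
    refine ⟨AP5.Tm_mono h1 ?_, ?_⟩
    · nlinarith only [hτJ, hcJ0, h7, h8]
    · nlinarith only [hτJ, hGa, hcJ0, h2, h7, h8, h9, h10]
  refine ⟨?_, ?_, ?_, ?_⟩
  · intro κ z hz
    have h1 := cnd_Tm F hTm z hz
    have h2 := cnd_Ga F ha0 z hz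
    have h5 : (4 : ℝ) ≤ K := by
      rw [hK]
      have : 0 ≤ a * L := by positivity
      have : 0 ≤ a * B := by positivity
      linarith
    have h8 : 4 * ((τ + c) * J) ≤ K * ((τ + c) * J) :=
      mul_le_mul_of_nonneg_right h5 (by positivity)
    refine ⟨AP5.Tm_mono h1 ?_, ?_⟩
    · nlinarith only [hτJ, hcJ0, h8]
    · nlinarith only [hτJ, hGa, hcJ0, h2, h8]
  · intro q hq hqc
    have hq0 : (0 : ℝ) ≤ q := Nat.cast_nonneg q
    refine fin (J - q) (F.tub q hq) q hq0 hqc (by rw [Nat.cast_sub hq]) (hU J F q hq _ hTm).1 ?_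
    have h1 := (hO J F a ha0).2.2.1 q hq _ hTm
    rw [abs_le] at h1
    have hLd : Det F.p F.l (F.L q) := by
      intro ω ω' _ _ h
      have h4 := Prod.ext_iff.1 h
      change (fl q (F.u ω), fl q (F.d ω)) = (fl q (F.u ω'), fl q (F.d ω'))
      rw [show F.u ω = F.u ω' from h4.1, show F.d ω = F.d ω' from h4.2]
    have h4 := AP2.time_info F hTm (F.L q) hLd
    have h5 := AP2.line_le F q hq
    have h6 := D_le F (fun ω => (F.X J ω, F.W ω)) q
    have b1 := CH_bayes hp (F.D J) (F.L q) F.Z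
    have b2 := CH_bayes hp (F.X J) (F.L q) F.W
    have n1 : 0 ≤ CH F.p (F.L q) (fun ω => (F.D J ω, F.Z ω)) := CH_nonneg hp _ _
    have n2 : 0 ≤ CH F.p (F.L q) F.W := CH_nonneg hp _ _
    unfold Fam.Ga at hGa ⊢
    have k0 : (m : ℝ) * (q * Real.log 2) = L * q := by rw [hL]; ring
    have k1 : a * CH F.p (F.L q) (fun ω => (F.X J ω, F.W ω)) ≤ a * (L * q + B) := by
      refine mul_le_mul_of_nonneg_left ?_ ha0
      rw [hB]
      linarith only [hC₀, hC₁, hC₂, hC₃, h5, h6, k0]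
    have k2 : CH F.p (F.L q) F.W ≤ a * CH F.p (F.L q) F.W := le_mul_of_one_le_left n2 ha
    have k3 : a * (CH F.p (F.X J) F.W - CH F.p (F.X J) (fun ω => (F.L q ω, F.W ω))) =
        a * (CH F.p (F.L q) F.W - CH F.p (F.L q) (fun ω => (F.X J ω, F.W ω))) := by
      rw [b2]
      ring
    have k4 : a * C₀ ≤ a * B := mul_le_mul_of_nonneg_left (by rw [hB]; linarith only [hC₁, hC₂, hC₃, hcc, hl5]) ha0
    have k5 : a * B ≤ a * B * (τ * J) := le_mul_of_one_le_right (by positivity) hτJ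
    have k6 : 0 ≤ a * (τ * J) := by positivity
    have k7 : 0 ≤ a * L * (τ * J) := by positivity
    have k8 : 0 ≤ a * B * q := by positivity
    have k9 : 0 ≤ a * q := by positivity
    unfold Fam.Ga at h1
    have k10 : K * (τ * J + q) = 4 * (τ * J) + 4 * q + 4 * (a * (τ * J)) + 4 * (a * q) +
        a * L * (τ * J) + a * (L * q) + 4 * (a * B * (τ * J)) + 4 * (a * B * q) := by
      rw [hK]; ring
    rw [k10]
    linarith only [hq, hτJ, h1, h4, b1, n1, k1, k2, k3, k4, k5, k6, k7, k8, k9, h1.1, h1.2]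
  · intro g hg hgc
    have hg0 : (0 : ℝ) ≤ g := Nat.cast_nonneg g
    refine fin (J - g) (F.win g) g hg0 hgc (by rw [Nat.cast_sub hg]) ((win_thm m J F g hg).1 _ hTm) ?_
    have h3 := (hO J F a ha0).2.1 g hg
    have w1 := (hW J F g hg _ (F.X J)).1
    have hDd : Det F.p F.l (F.D (J - g)) := by
      intro ω ω' _ _ h
      have h4 : F.d ω = F.d ω' := (Prod.ext_iff.1 h).2
      change fl (J - g) (F.d ω) = fl (J - g) (F.d ω')
      rw [h4]
    have w2 := (hW J F g hg _ (F.D (J - g))).2 _ hTm hDd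
    have c1 := CH_bayes hp (F.X J) (F.X g) F.W
    have c2 : CH F.p (F.X g) (fun ω => (F.X J ω, F.W ω)) = 0 := CH_eq_zero hp
      fun ω ω' _ _ h => AP4.X_det F hg (Prod.ext_iff.1 h).1
    have c4 := CH_bayes hp (F.D (J - g)) (F.X g) F.W
    have n1 : 0 ≤ CH F.p (F.X g) (fun ω => (F.D (J - g) ω, F.W ω)) := CH_nonneg hp _ _
    have n2 : 0 ≤ CH F.p (F.X g) F.W := CH_nonneg hp _ _
    have t1 := AP2.time_info F hTm (F.D (J - g)) hDd
    have d1 : CH F.p (F.D J) F.Z = CH F.p (F.D (J - g)) F.Z +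
        CH F.p (F.D J) (fun ω => (F.D (J - g) ω, F.Z ω)) :=
      AP3.chain_det hp _ _ _ fun ω ω' _ _ e => Pool.STK.B58.fl_fine (Nat.sub_le J g) e
    have d3 : CH F.p (F.D J) (fun ω => (F.D (J - g) ω, F.Z ω)) ≤ L * g := by
      have h2 := TRC.CH_floor F.isLaw F.d F.Z (J - g) g
      rw [Nat.sub_add_cancel hg] at h2
      rw [hL]
      refine le_of_le_of_eq h2 ?_
      ring
    rw [h3]
    rw [abs_le] at w1 w2
    unfold Fam.Ga
    have k1 : a * (CH F.p (F.X J) (fun ω => (F.T ω, F.c g ω)) -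
        CH F.p (F.X J) (fun ω => (F.X g ω, F.W ω))) ≤ a * C₁ :=
      mul_le_mul_of_nonneg_left (by linarith only [w1, w1.2]) ha0
    have k2 : a * (CH F.p (F.X J) (fun ω => (F.X g ω, F.W ω))) =
        a * CH F.p (F.X J) F.W - a * CH F.p (F.X g) F.W := by
      have : CH F.p (F.X J) (fun ω => (F.X g ω, F.W ω)) = CH F.p (F.X J) F.W - CH F.p (F.X g) F.W := by
        linarith only [c1, c2]
      rw [this]
      ring
    have k3 : CH F.p (F.X g) F.W ≤ a * CH F.p (F.X g) F.W := le_mul_of_one_le_left n2 ha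
    have k4 : a * C₁ ≤ a * B := mul_le_mul_of_nonneg_left (by rw [hB]; linarith only [hC₀, hC₂, hC₃, hcc, hl5]) ha0
    have k4' : C₁ ≤ a * B := by
      have : C₁ ≤ B := by rw [hB]; linarith only [hC₀, hC₂, hC₃, hcc, hl5]
      exact this.trans (le_mul_of_one_le_left hB0 ha)
    have k5 : a * B ≤ a * B * (τ * J) := le_mul_of_one_le_right (by positivity) hτJ
    have k6 : 0 ≤ a * (τ * J) := by positivity
    have k7 : 0 ≤ a * L * (τ * J) := by positivity
    have k8 : 0 ≤ a * B * g := by positivity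
    have k9 : 0 ≤ a * g := by positivity
    have k11 : L * g ≤ a * (L * g) := le_mul_of_one_le_left (by positivity) ha
    have k10 : K * (τ * J + g) = 4 * (τ * J) + 4 * g + 4 * (a * (τ * J)) + 4 * (a * g) +
        a * L * (τ * J) + a * (L * g) + 4 * (a * B * (τ * J)) + 4 * (a * B * g) := by
      rw [hK]; ring
    rw [k10]
    linarith only [hC₁, hτJ, w2, c4, n1, t1, d1, d3, k1, k2, k3, k4, k4', k5, k6, k7, k8, k9, k11, w1.1, w1.2, w2.1, w2.2]
  · intro x hx hxc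
    have hxJ : (x : ℝ) ≤ J := by exact_mod_cast hx
    have hg0 : (0 : ℝ) ≤ (J : ℝ) - x := by linarith only [hxJ]
    refine fin x (F.trc x hx) (J - x) hg0 hxc (by ring) ((hT J F x hx _ hTm).1) ?_
    have h1 := (hO J F a ha0).2.2.2 x hx _ hTm
    rw [abs_le] at h1
    have d1 : CH F.p (F.D J) F.Z = CH F.p (F.D x) F.Z +
        CH F.p (F.D J) (fun ω => (F.D x ω, F.Z ω)) :=
      AP3.chain_det hp _ _ _ fun ω ω' _ _ e => Pool.STK.B58.fl_fine hx e
    have d2 : CH F.p (F.X J) F.W = CH F.p (F.X x) F.W +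
        CH F.p (F.X J) (fun ω => (F.X x ω, F.W ω)) :=
      AP3.chain_det hp _ _ _ fun ω ω' _ _ e => Pool.STK.B58.fl_fine hx e
    have n1 : 0 ≤ CH F.p (F.X J) (fun ω => (F.X x ω, F.W ω)) := CH_nonneg hp _ _
    have d3 : CH F.p (F.D J) (fun ω => (F.D x ω, F.Z ω)) ≤ L * ((J : ℝ) - x) := by
      have h2 := TRC.CH_floor F.isLaw F.d F.Z x (J - x)
      rw [Nat.add_sub_of_le hx, Nat.cast_sub hx] at h2
      rw [hL]
      refine le_of_le_of_eq h2 ?_
      ring
    unfold Fam.Ga at h1 ⊢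
    have k1 : a * CH F.p (F.X x) F.W ≤ a * CH F.p (F.X J) F.W :=
      mul_le_mul_of_nonneg_left (by linarith only [d2, n1]) ha0
    have k4 : a * C₀ ≤ a * B := mul_le_mul_of_nonneg_left (by rw [hB]; linarith only [hC₁, hC₂, hC₃, hcc, hl5]) ha0
    have k5 : a * B ≤ a * B * (τ * J) := le_mul_of_one_le_right (by positivity) hτJ
    have k6 : 0 ≤ a * (τ * J) := by positivity
    have k7 : 0 ≤ a * L * (τ * J) := by positivity
    have k8 : 0 ≤ a * B * ((J : ℝ) - x) := by positivity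
    have k9 : 0 ≤ a * ((J : ℝ) - x) := by positivity
    have k11 : L * ((J : ℝ) - x) ≤ a * (L * ((J : ℝ) - x)) :=
      le_mul_of_one_le_left (by positivity) ha
    have k10 : K * (τ * J + (J - x)) = 4 * (τ * J) + 4 * ((J : ℝ) - x) + 4 * (a * (τ * J)) +
        4 * (a * ((J : ℝ) - x)) + a * L * (τ * J) + a * (L * ((J : ℝ) - x)) +
        4 * (a * B * (τ * J)) + 4 * (a * B * ((J : ℝ) - x)) := by
      rw [hK]; ring
    rw [k10]
    linarith only [hx, hτJ, hxJ, h1, d1, d3, k1, k4, k5, k7, k8, k9, k11, h1.1, h1.2]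

end Pool.KA
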