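import Pool.Agent.H97.KAL.HBL

/-!
# Budgets along adapted, partially nested contexts

`A j : Ω → Option σ` is the start context at the row number `j` (`none`: the row is not treated),
`E j` the end of the step. If the start context at a later row determines the earlier start
contexts and the ends of the earlier steps, then the dependences of one variable `o` and the ends of
the steps, given the start contexts, add up to at most `H o` (JBG1).

JBG2 is the case of two kinds of steps: the rows are divided into runs (`g j ω` is the number of the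
run); the ends of the steps of the first kind are only known two runs later, the ends of the steps
of the second kind are known within the run, but the variable `o₂ (g j ω)` depends on the run. Rows
at which both kinds of steps are bad are few.
-/

set_option autoImplicit false

namespace Pool.KX

open Finset Real
open Pool.Agent.H49.Ent Pool.Agent.H32.Dense Pool.STK Pool.KAF Pool.KAL

/-- The dependence of `o` and `E` given the value of `A` at the place `ω`. -/
noncomputable def vmi {Ω S σ τ : Type} [Fintype Ω] (p : Ω → ℝ) (A : Ω → σ) (o : Ω → S)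
    (E : Ω → τ) (ω : Ω) : ℝ :=
  H (cond p A (A ω)) o - CH (cond p A (A ω)) o E

open Classical in
/-- **Adapted budget.** -/
def JBG1Stmt : Prop :=
  ∀ (Ω S σ τ : Type) [Fintype Ω] (p : Ω → ℝ) (o : Ω → S) (A : ℕ → Ω → Option σ) (E : ℕ → Ω → τ)
    (n : ℕ), IsLaw p →
    (∀ i j ω ω', i < j → j < n → 0 < p ω → 0 < p ω' → A j ω = A j ω' → A j ω ≠ none →
      A i ω = A i ω' ∧ (A i ω ≠ none → E i ω = E i ω')) →
    ∑ j ∈ range n, Ex p (fun ω => if A j ω = none then 0 else vmi p (A j) o (E j) ω) ≤ H p o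

/-- **Doubly bad rows are few.** -/
def JBG2Stmt : Prop :=
  ∀ (Ω S₁ S₂ σ τ₁ τ₂ : Type) [Fintype Ω] (p : Ω → ℝ) (o₁ : Ω → S₁) (o₂ : ℕ → Ω → S₂)
    (A : ℕ → Ω → Option σ) (g : ℕ → Ω → ℕ) (E₁ : ℕ → Ω → τ₁) (E₂ : ℕ → Ω → τ₂) (n : ℕ)
    (a₁ a₂ h₁ h₂ : ℝ), IsLaw p → 0 < a₁ → 0 < a₂ → H p o₁ ≤ h₁ → 0 ≤ h₂ →
    (∀ j < n, ∀ ω, 0 < p ω → A j ω ≠ none → H (cond p (A j) (A j ω)) (o₂ (g j ω)) ≤ h₂) →
    (∀ j < n, ∀ ω ω', 0 < p ω → 0 < p ω' → A j ω = A j ω' → A j ω ≠ none → g j ω = g j ω') →
    (∀ i j ω, i < j → j < n → 0 < p ω → A i ω ≠ none → A j ω ≠ none → g i ω ≤ g j ω) →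
    (∀ i j ω ω', i < j → j < n → 0 < p ω → 0 < p ω' → A j ω = A j ω' → A j ω ≠ none →
      A i ω = A i ω' ∧ (A i ω ≠ none → (g i ω + 2 ≤ g j ω → E₁ i ω = E₁ i ω') ∧
        (g i ω = g j ω → E₂ i ω = E₂ i ω'))) →
    ∑ j ∈ range n, Pr p {ω | A j ω ≠ none ∧ a₁ < vmi p (A j) o₁ (E₁ j) ω ∧
      a₂ < vmi p (A j) (o₂ (g j ω)) (E₂ j) ω} ≤ 2 * (h₁ / a₁) * (h₂ / a₂)

namespace JBG

variable {Ω S σ τ υ : Type} [Fintype Ω]

open Classical in
/-- Two descriptions of the same conditional law. -/
lemma cond_fib {p q : Ω → ℝ} {W₁ : Ω → σ} {W₂ : Ω → τ} {w₁ : σ} {w₂ : τ} {c : ℝ} (hc : 0 < c)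
    (h : ∀ v, (if W₁ v = w₁ then q v else 0) = (if W₂ v = w₂ then p v else 0) / c) :
    cond q W₁ w₁ = cond p W₂ w₂ := by
  have hl : law q W₁ w₁ = law p W₂ w₂ / c := by
    unfold law
    rw [Finset.sum_div]
    exact Finset.sum_congr rfl fun v _ => h v
  funext v
  have e1 : cond q W₁ w₁ v = (if W₁ v = w₁ then q v else 0) / law q W₁ w₁ := by
    unfold Pool.Agent.H49.Ent.cond
    split_ifs <;> simp
  have e2 : cond p W₂ w₂ v = (if W₂ v = w₂ then p v else 0) / law p W₂ w₂ := by
    unfold Pool.Agent.H49.Ent.cond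
    split_ifs <;> simp
  rw [e1, e2, hl, h v, div_div_div_cancel_right₀ hc.ne']

/-- The mean of the conditional entropies. -/
lemma Ex_CH {p : Ω → ℝ} (hp : ∀ ω, 0 ≤ p ω) (X : Ω → S) (Y : Ω → τ) (W : Ω → υ) :
    Ex p (fun ω => CH (cond p W (W ω)) X Y) = CH p X (fun ω => (Y ω, W ω)) := by
  have h1 := CDF.Ex_H hp (fun ω => (X ω, Y ω)) W
  have h2 := CDF.Ex_H hp Y W
  have h3 := CH_chain hp X Y W
  have h4 : Ex p (fun ω => CH (cond p W (W ω)) X Y) =
      Ex p (fun ω => H (cond p W (W ω)) (fun ω => (X ω, Y ω)) - H (cond p W (W ω)) Y) := rfl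
  rw [h4, Ex_sub, h1, h2]
  linarith

lemma CH_le_H' {p : Ω → ℝ} (hp : ∀ ω, 0 ≤ p ω) (h1 : ∑ ω, p ω = 1) (X : Ω → S) (Y : Ω → τ) :
    CH p X Y ≤ H p X := by
  have := subadd hp h1 (X := X) (Y := Y) (W := fun ω => (X ω, Y ω)) (fun _ _ _ _ h => h)
  unfold CH
  linarith

/-- The last treated row before `k`, with its context and the end of its step. -/
noncomputable def last (A : ℕ → Ω → Option σ) (E : ℕ → Ω → τ) :
    ℕ → Ω → Option (ℕ × Option σ × Option τ)
  | 0, _ => none
  | k + 1, ω => by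
      classical
      exact if A k ω = none then last A E k ω else some (k, A k ω, some (E k ω))

omit [Fintype Ω] in
open Classical in
lemma last_succ (A : ℕ → Ω → Option σ) (E : ℕ → Ω → τ) (k : ℕ) (ω : Ω) :
    last A E (k + 1) ω = if A k ω = none then last A E k ω else some (k, A k ω, some (E k ω)) :=
  rfl

omit [Fintype Ω] in
lemma last_lt (A : ℕ → Ω → Option σ) (E : ℕ → Ω → τ) (k : ℕ) (ω : Ω)
    {z : ℕ × Option σ × Option τ} (h : last A E k ω = some z) : z.1 < k ∧ z.2.2 ≠ none := by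
  classical
  induction k with
  | zero => exact absurd h (by simp [last])
  | succ k ih =>
    rw [last_succ] at h
    split_ifs at h with h1
    · have := ih h
      exact ⟨by omega, this.2⟩
    · rw [Option.some.injEq] at h
      rw [← h]
      exact ⟨by simp, by simp⟩

omit [Fintype Ω] in
lemma last_congr (A : ℕ → Ω → Option σ) (E : ℕ → Ω → τ) (k : ℕ) {ω ω' : Ω}
    (h : ∀ i < k, A i ω = A i ω' ∧ (A i ω ≠ none → E i ω = E i ω')) :
    last A E k ω = last A E k ω' := by
  classical
  induction k with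
  | zero => rfl
  | succ k ih =>
    rw [last_succ, last_succ, ih fun i hi => h i (by omega)]
    obtain ⟨h1, h2⟩ := h k (by omega)
    rw [← h1]
    split_ifs with h3
    · rfl
    · rw [h2 h3]

open Classical in
/-- The last treated row before `k`, or the context at `k`. -/
noncomputable def mid (A : ℕ → Ω → Option σ) (E : ℕ → Ω → τ) (k : ℕ) (ω : Ω) :
    Option (ℕ × Option σ × Option τ) :=
  if A k ω = none then last A E k ω else some (k, A k ω, none)

omit [Fintype Ω] in
lemma mid_det {p : Ω → ℝ} {A : ℕ → Ω → Option σ} {E : ℕ → Ω → τ} {k : ℕ}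
    (h : ∀ i ω ω', i < k → 0 < p ω → 0 < p ω' → A k ω = A k ω' → A k ω ≠ none →
      A i ω = A i ω' ∧ (A i ω ≠ none → E i ω = E i ω')) :
    Det p (mid A E k) (last A E k) := by
  classical
  intro ω ω' hω hω' he
  unfold mid at he
  split_ifs at he with h1 h2 h2
  · exact he
  · have := last_lt A E k ω he
    exact absurd rfl this.2
  · have := last_lt A E k ω' he.symm
    exact absurd rfl this.2
  · rw [Option.some.injEq, Prod.mk.injEq, Prod.mk.injEq] at he
    exact last_congr A E k fun i hi => h i ω ω' hi hω hω' he.2.1 h1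

omit [Fintype Ω] in
lemma det_mid {p : Ω → ℝ} {A : ℕ → Ω → Option σ} {E : ℕ → Ω → τ} {k : ℕ} :
    Det p (last A E (k + 1)) (mid A E k) := by
  classical
  intro ω ω' _ _ he
  rw [last_succ, last_succ] at he
  unfold mid
  split_ifs at he ⊢ with h1 h2 h2
  · exact he
  · have := last_lt A E k ω he
    exact absurd this.1 (by simp)
  · have := last_lt A E k ω' he.symm
    exact absurd this.1 (by simp)
  · rw [Option.some.injEq, Prod.mk.injEq, Prod.mk.injEq] at he
    rw [he.2.1]

end JBG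

open JBG

theorem jbg1_thm : JBG1Stmt := by
  classical
  intro Ω S σ τ _ p o A E n hp hA
  have h0 := hp.nonneg
  have hs := hp.sum_one
  have step : ∀ k < n, Ex p (fun ω => if A k ω = none then 0 else vmi p (A k) o (E k) ω) ≤
      CH p o (last A E k) - CH p o (last A E (k + 1)) := by
    intro k hk
    have h1 : CH p o (mid A E k) ≤ CH p o (last A E k) :=
      CH_mono_cond h0 (mid_det fun i ω ω' hi => hA i k ω ω' hi hk)
    have h2 : CH p o (last A E (k + 1)) = CH p o (fun ω => (last A E (k + 1) ω, mid A E k ω)) :=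
      CH_congr h0 (fun ω ω' _ _ h => (Prod.ext_iff.mp h).1) (fun ω ω' _ _ h => (Prod.ext_iff.mp h).1)
        (fun ω ω' a b h => Prod.ext h (det_mid ω ω' a b h)) (fun ω ω' _ _ h => (Prod.ext_iff.mp h).1)
    have h3 : Ex p (fun ω => if A k ω = none then 0 else vmi p (A k) o (E k) ω) ≤
        Ex p (fun ω => H (cond p (mid A E k) (mid A E k ω)) o -
          CH (cond p (mid A E k) (mid A E k ω)) o (last A E (k + 1))) := by
      refine Ex_mono h0 fun ω hω => ?_
      have hq := cond_nonneg h0 (mid A E k) (mid A E k ω)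
      have hq1 := sum_cond p (mid A E k) (law_pos h0 (mid A E k) hω).ne'
      split_ifs with h4
      · have := CH_le_H' hq hq1 o (last A E (k + 1))
        linarith
      · have hm : mid A E k ω = some (k, A k ω, none) := by
          unfold mid
          rw [if_neg h4]
        have hfib : ∀ v, mid A E k v = mid A E k ω ↔ A k v = A k ω := by
          intro v
          rw [hm]
          unfold mid
          constructor
          · intro h
            split_ifs at h with h5
            · exact absurd rfl (last_lt A E k v h).2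
            · rw [Option.some.injEq, Prod.mk.injEq, Prod.mk.injEq] at h
              exact h.2.1
          · intro h
            rw [if_neg (by rw [h]; exact h4), h]
        have hc : cond p (mid A E k) (mid A E k ω) = cond p (A k) (A k ω) := by
          refine cond_fib one_pos fun v => ?_
          rw [div_one]
          by_cases h : A k v = A k ω
          · rw [if_pos h, if_pos ((hfib v).2 h)]
          · rw [if_neg h, if_neg fun h' => h ((hfib v).1 h')]
        unfold vmi
        rw [hc] at hq ⊢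
        have h5 : CH (cond p (A k) (A k ω)) o (last A E (k + 1)) =
            CH (cond p (A k) (A k ω)) o (E k) := by
          have hl : ∀ v, 0 < cond p (A k) (A k ω) v →
              last A E (k + 1) v = some (k, A k ω, some (E k v)) := by
            intro v hv
            have h6 := ((cond_pos_iff h0 _ _ v).1 hv).2
            rw [last_succ, h6, if_neg h4]
          refine CH_congr hq (fun a b _ _ h => (Prod.ext_iff.mp h).1)
            (fun a b _ _ h => (Prod.ext_iff.mp h).1) ?_ ?_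
          · intro a b ha hb h
            rw [hl a ha, hl b hb, Option.some.injEq, Prod.mk.injEq, Prod.mk.injEq,
              Option.some.injEq] at h
            exact h.2.2
          · intro a b ha hb h
            rw [hl a ha, hl b hb, h]
        rw [h5]
    rw [Ex_sub, CDF.Ex_H h0, Ex_CH h0, ← h2] at h3
    linarith
  have hsum := Finset.sum_le_sum fun k hk => step k (Finset.mem_range.1 hk)
  rw [Finset.sum_range_sub'] at hsum
  have h1 := CH_nonneg h0 o (last A E n)
  have h2 := CH_le_H' h0 hs o (last A E 0)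
  linarith

namespace JBG

variable {Ω S σ τ υ : Type} [Fintype Ω]

lemma Pr_ex (p : Ω → ℝ) (P : Ω → Prop) [DecidablePred P] :
    Pr p {ω | P ω} = Ex p (fun ω => if P ω then 1 else 0) := by
  rw [CDF.Pr_eq]
  simp only [Ex]
  refine Finset.sum_congr rfl fun ω _ => ?_
  by_cases h : P ω
  · rw [if_pos h, if_pos (show ω ∈ {ω | P ω} from h), mul_one]
  · rw [if_neg h, if_neg (show ω ∉ {ω | P ω} from h), mul_zero]

lemma vmi_nonneg {p : Ω → ℝ} (hp : ∀ ω, 0 ≤ p ω) (A : Ω → σ) (o : Ω → S) (E : Ω → τ) {ω : Ω}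
    (hω : 0 < p ω) : 0 ≤ vmi p A o E ω := by
  have := CH_le_H' (cond_nonneg hp A (A ω)) (sum_cond p A (law_pos hp A hω).ne') o E
  unfold vmi
  linarith

lemma vmi_congr {p q : Ω → ℝ} {A : Ω → σ} {A' : Ω → υ} {o : Ω → S} {E : Ω → τ} {ω ω' : Ω}
    (h : cond q A' (A' ω') = cond p A (A ω)) : vmi q A' o E ω' = vmi p A o E ω := by
  unfold vmi
  rw [h]

/-- A bound for a sum of probabilities. -/
lemma Ex_sum {ι : Type} (p : Ω → ℝ) (s : Finset ι) (f : ι → Ω → ℝ) :
    Ex p (fun ω => ∑ j ∈ s, f j ω) = ∑ j ∈ s, Ex p (f j) := by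
  unfold Ex
  rw [Finset.sum_comm]
  refine Finset.sum_congr rfl fun ω _ => ?_
  rw [Finset.mul_sum]

end JBG

theorem jbg2_thm : JBG2Stmt := by
  classical
  intro Ω S₁ S₂ σ τ₁ τ₂ _ p o₁ o₂ A g E₁ E₂ n a₁ a₂ h₁ h₂ hp ha₁ ha₂ hH₁ hh₂ hH₂ hg hmono hA
  have h0 := hp.nonneg
  have hs := hp.sum_one
  let b1 : ℕ → Ω → Prop := fun j ω => A j ω ≠ none ∧ a₁ < vmi p (A j) o₁ (E₁ j) ω
  let b2 : ℕ → Ω → Prop := fun j ω => A j ω ≠ none ∧ a₂ < vmi p (A j) (o₂ (g j ω)) (E₂ j) ω
  let F : ℕ → Ω → Prop := fun j ω => b1 j ω ∧ ∀ i < j, A i ω ≠ none → g i ω = g j ω → ¬ b1 i ω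
  have hb1 : ∀ j ω ω', A j ω = A j ω' → b1 j ω → b1 j ω' := by
    intro j ω ω' h hb
    refine ⟨h ▸ hb.1, ?_⟩
    have h1 : vmi p (A j) o₁ (E₁ j) ω' = vmi p (A j) o₁ (E₁ j) ω := vmi_congr (by rw [h])
    rw [h1]
    exact hb.2
  have hF : ∀ j < n, ∀ ω ω', 0 < p ω → 0 < p ω' → A j ω = A j ω' → F j ω → F j ω' := by
    intro j hj ω ω' hω hω' he hFj
    refine ⟨hb1 j ω ω' he hFj.1, fun i hi hn hgi hb => ?_⟩
    have hne : A j ω ≠ none := hFj.1.1
    obtain ⟨e1, -⟩ := hA i j ω ω' hi hj hω hω' he hne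
    have hni : A i ω ≠ none := by
      rw [e1]
      exact hn
    refine hFj.2 i hi hni ?_ (hb1 i ω' ω e1.symm hb)
    rw [hg i (by omega) ω ω' hω hω' e1 hni, hgi, hg j hj ω ω' hω hω' he hne]
  -- the first bad rows of the runs of one parity
  have part1 : ∀ c : ℕ, (∑ j ∈ range n, Pr p {ω | F j ω ∧ g j ω % 2 = c}) * a₁ ≤ h₁ := by
    intro c
    let A' : ℕ → Ω → Option σ := fun j ω => if F j ω ∧ g j ω % 2 = c then A j ω else none
    have hA' : ∀ j ω, A' j ω ≠ none → (F j ω ∧ g j ω % 2 = c) ∧ A' j ω = A j ω := by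
      intro j ω h
      by_cases h1 : F j ω ∧ g j ω % 2 = c
      · exact ⟨h1, if_pos h1⟩
      · exact absurd (if_neg h1) h
    have hJ := jbg1_thm Ω S₁ σ τ₁ p o₁ A' E₁ n hp (by
      intro i j ω ω' hij hj hω hω' he hne
      obtain ⟨⟨hFj, hpj⟩, ej⟩ := hA' j ω hne
      obtain ⟨⟨hFj', hpj'⟩, ej'⟩ := hA' j ω' (he ▸ hne)
      have hj1 : A j ω = A j ω' := by rw [← ej, ← ej', he]
      have hjn : A j ω ≠ none := by
        rw [← ej]
        exact hne
      obtain ⟨e1, e2⟩ := hA i j ω ω' hij hj hω hω' hj1 hjn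
      refine ⟨?_, fun hi => ?_⟩
      · by_cases hi : A i ω = none
        · have z : ∀ v, A i v = none → A' i v = none := by
            intro v hv
            by_contra h
            obtain ⟨-, h2⟩ := hA' i v h
            exact h (h2.trans hv)
          rw [z ω hi, z ω' (e1 ▸ hi)]
        · have hgi := hg i (by omega) ω ω' hω hω' e1 hi
          have hFi : F i ω ↔ F i ω' :=
            ⟨hF i (by omega) ω ω' hω hω' e1, hF i (by omega) ω' ω hω' hω e1.symm⟩
          by_cases h1 : F i ω ∧ g i ω % 2 = c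
          · have h2 : F i ω' ∧ g i ω' % 2 = c := ⟨hFi.1 h1.1, hgi ▸ h1.2⟩
            rw [show A' i ω = A i ω from if_pos h1, show A' i ω' = A i ω' from if_pos h2, e1]
          · have h2 : ¬ (F i ω' ∧ g i ω' % 2 = c) := fun h => h1 ⟨hFi.2 h.1, hgi.symm ▸ h.2⟩
            rw [show A' i ω = none from if_neg h1, show A' i ω' = none from if_neg h2]
      · obtain ⟨⟨hFi, hpi⟩, ei⟩ := hA' i ω hi
        have hin : A i ω ≠ none := by
          rw [← ei]
          exact hi
        refine (e2 hin).1 ?_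
        have h1 := hmono i j ω hij hj hω hin hjn
        have h2 : g i ω ≠ g j ω := fun h => hFj.2 i hij hin h hFi.1
        omega)
    rw [Finset.sum_mul]
    refine (Finset.sum_le_sum fun j hj => ?_).trans (hJ.trans hH₁)
    rw [mem_range] at hj
    rw [Pr_ex, mul_comm, ← Ex_smul]
    refine Ex_mono h0 fun ω hω => ?_
    by_cases hc : F j ω ∧ g j ω % 2 = c
    · have e1 : A' j ω = A j ω := if_pos hc
      have hn : A' j ω ≠ none := by
        rw [e1]
        exact hc.1.1.1
      rw [if_pos hc, mul_one, if_neg hn]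
      have h2 : cond p (A' j) (A' j ω) = cond p (A j) (A j ω) := by
        refine cond_fib one_pos fun v => ?_
        rw [div_one]
        rcases (h0 v).eq_or_lt with hv | hv
        · rw [← hv, ite_self, ite_self]
        · by_cases h3 : A j v = A j ω
          · rw [if_pos h3, if_pos]
            rw [e1, ← h3]
            refine if_pos ⟨hF j hj ω v hω hv h3.symm hc.1, ?_⟩
            rw [← hg j hj ω v hω hv h3.symm hc.1.1.1]
            exact hc.2
          · rw [if_neg h3, if_neg]
            intro h4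
            have h5 := (hA' j v (by rw [h4]; exact hn)).2
            exact h3 (by rw [← h5, h4, e1])
      rw [vmi_congr h2]
      exact hc.1.1.2.le
    · rw [if_neg hc, mul_zero]
      split_ifs with h1
      · exact le_rfl
      · exact vmi_nonneg h0 _ _ _ hω
  -- the bad rows of the second kind after the first bad row of a run
  have part2 : ∀ i < n, (∑ j ∈ range n, Pr p {ω | F i ω ∧ i ≤ j ∧ g j ω = g i ω ∧ b2 j ω}) * a₂ ≤
      Pr p {ω | F i ω} * h₂ := by
    intro i hi
    let f : Ω → ℝ := fun ω =>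
      ∑ j ∈ range n, if i ≤ j ∧ g j ω = g i ω ∧ b2 j ω then a₂ else 0
    let G : Option σ → ℝ := fun z => if ∃ ω', 0 < p ω' ∧ A i ω' = z ∧ F i ω' then 1 else 0
    have hG : ∀ ω, 0 < p ω → G (A i ω) = if F i ω then 1 else 0 := by
      intro ω hω
      by_cases h : F i ω
      · rw [if_pos h]
        exact if_pos ⟨ω, hω, rfl, h⟩
      · rw [if_neg h]
        refine if_neg ?_
        rintro ⟨ω', hω', h1, h2⟩
        exact h (hF i hi ω' ω hω' hω h1 h2)
    have key : ∀ ω₀, 0 < p ω₀ → F i ω₀ → Ex (cond p (A i) (A i ω₀)) f ≤ h₂ := by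
      intro ω₀ hω₀ hF₀
      have hin : A i ω₀ ≠ none := hF₀.1.1
      have hc : 0 < law p (A i) (A i ω₀) := law_pos h0 (A i) hω₀
      have hqn := cond_nonneg h0 (A i) (A i ω₀)
      have hqs := sum_cond p (A i) hc.ne'
      have hq : IsLaw (cond p (A i) (A i ω₀)) := ⟨hqn, hqs⟩
      have hqp : ∀ v, 0 < cond p (A i) (A i ω₀) v → 0 < p v ∧ A i v = A i ω₀ :=
        fun v hv => (cond_pos_iff h0 _ _ v).1 hv
      let A'' : ℕ → Ω → Option σ := fun j ω => if i ≤ j ∧ g j ω = g i ω₀ then A j ω else none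
      have hA'' : ∀ j ω, A'' j ω ≠ none → (i ≤ j ∧ g j ω = g i ω₀) ∧ A'' j ω = A j ω := by
        intro j ω h
        by_cases h1 : i ≤ j ∧ g j ω = g i ω₀
        · exact ⟨h1, if_pos h1⟩
        · exact absurd (if_neg h1) h
      have hJ := jbg1_thm Ω S₂ σ τ₂ (cond p (A i) (A i ω₀)) (o₂ (g i ω₀)) A'' E₂ n hq (by
        intro a b ω ω' hab hb hω hω' he hne
        obtain ⟨hω1, -⟩ := hqp ω hω
        obtain ⟨hω1', -⟩ := hqp ω' hω'
        obtain ⟨⟨hib, hgb⟩, eb⟩ := hA'' b ω hne
        obtain ⟨⟨-, hgb'⟩, eb'⟩ := hA'' b ω' (he ▸ hne)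
        have hb1 : A b ω = A b ω' := by rw [← eb, ← eb', he]
        have hbn : A b ω ≠ none := by
          rw [← eb]
          exact hne
        obtain ⟨e1, e2⟩ := hA a b ω ω' hab hb hω1 hω1' hb1 hbn
        refine ⟨?_, fun ha => ?_⟩
        · by_cases ha : A a ω = none
          · have z : ∀ v, A a v = none → A'' a v = none := by
              intro v hv
              by_contra h
              obtain ⟨-, h2⟩ := hA'' a v h
              exact h (h2.trans hv)
            rw [z ω ha, z ω' (e1 ▸ ha)]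
          · have hga := hg a (by omega) ω ω' hω1 hω1' e1 ha
            by_cases h1 : i ≤ a ∧ g a ω = g i ω₀
            · have h2 : i ≤ a ∧ g a ω' = g i ω₀ := ⟨h1.1, hga ▸ h1.2⟩
              rw [show A'' a ω = A a ω from if_pos h1, show A'' a ω' = A a ω' from if_pos h2, e1]
            · have h2 : ¬ (i ≤ a ∧ g a ω' = g i ω₀) := fun h => h1 ⟨h.1, hga.trans h.2⟩
              rw [show A'' a ω = none from if_neg h1, show A'' a ω' = none from if_neg h2]
        · obtain ⟨⟨-, hga⟩, ea⟩ := hA'' a ω ha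
          have han : A a ω ≠ none := by
            rw [← ea]
            exact ha
          exact (e2 han).2 (hga.trans hgb.symm))
      refine le_trans ?_ (hJ.trans (hH₂ i hi ω₀ hω₀ hin))
      change Ex (cond p (A i) (A i ω₀)) (fun ω => ∑ j ∈ range n,
        if i ≤ j ∧ g j ω = g i ω ∧ b2 j ω then a₂ else 0) ≤ _
      rw [Ex_sum (cond p (A i) (A i ω₀)) (range n)
        (fun j ω => if i ≤ j ∧ g j ω = g i ω ∧ b2 j ω then a₂ else 0)]
      refine Finset.sum_le_sum fun j hj => ?_
      rw [mem_range] at hj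
      refine Ex_mono hqn fun ω hω => ?_
      obtain ⟨hω1, hωA⟩ := hqp ω hω
      have hgi : g i ω = g i ω₀ := hg i hi ω ω₀ hω1 hω₀ hωA (hωA ▸ hin)
      by_cases hb : i ≤ j ∧ g j ω = g i ω ∧ b2 j ω
      · rw [if_pos hb]
        have h1 : i ≤ j ∧ g j ω = g i ω₀ := ⟨hb.1, hb.2.1.trans hgi⟩
        have e1 : A'' j ω = A j ω := if_pos h1
        have hn : A'' j ω ≠ none := by
          rw [e1]
          exact hb.2.2.1
        rw [if_neg hn]
        have h2 : cond (cond p (A i) (A i ω₀)) (A'' j) (A'' j ω) = cond p (A j) (A j ω) := by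
          refine cond_fib hc fun v => ?_
          have ev : cond p (A i) (A i ω₀) v =
              if A i v = A i ω₀ then p v / law p (A i) (A i ω₀) else 0 := by
            unfold Pool.Agent.H49.Ent.cond
            by_cases h : A i v = A i ω₀
            · rw [if_pos h, if_pos h]
            · rw [if_neg h, if_neg h]
          rcases (h0 v).eq_or_lt with hv | hv
          · rw [ev, ← hv, zero_div, ite_self, ite_self, ite_self, zero_div]
          · by_cases h3 : A j v = A j ω
            · have hjn : A j v ≠ none := by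
                rw [h3]
                exact hb.2.2.1
              have h4 : A i v = A i ω := by
                rcases Nat.lt_or_ge i j with h5 | h5
                · exact (hA i j v ω h5 hj hv hω1 h3 hjn).1
                · have : i = j := le_antisymm hb.1 h5
                  rw [this]
                  exact h3
              have h5 : g j v = g i ω₀ := (hg j hj v ω hv hω1 h3 hjn).trans h1.2
              have h6 : A'' j v = A j v := if_pos ⟨hb.1, h5⟩
              rw [if_pos h3, if_pos (by rw [h6, e1, h3]), ev, if_pos (h4.trans hωA)]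
            · rw [if_neg h3, zero_div, if_neg]
              intro h4
              have h5 := (hA'' j v (by rw [h4]; exact hn)).2
              exact h3 (by rw [← h5, h4, e1])
        rw [vmi_congr h2]
        have h3 := hb.2.2.2.le
        rwa [h1.2] at h3
      · rw [if_neg hb]
        split_ifs with h1
        · exact le_rfl
        · exact vmi_nonneg hqn _ _ _ hω
    have e1 : (∑ j ∈ range n, Pr p {ω | F i ω ∧ i ≤ j ∧ g j ω = g i ω ∧ b2 j ω}) * a₂ =
        Ex p (fun ω => G (A i ω) * f ω) := by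
      have e2 : Ex p (fun ω => G (A i ω) * f ω) =
          Ex p (fun ω => ∑ j ∈ range n,
            a₂ * (if F i ω ∧ i ≤ j ∧ g j ω = g i ω ∧ b2 j ω then (1 : ℝ) else 0)) := by
        refine Finset.sum_congr rfl fun ω _ => ?_
        rcases (h0 ω).eq_or_lt with h | h
        · rw [← h, zero_mul, zero_mul]
        · change p ω * (G (A i ω) * f ω) = p ω * ∑ j ∈ range n,
            a₂ * (if F i ω ∧ i ≤ j ∧ g j ω = g i ω ∧ b2 j ω then (1 : ℝ) else 0)
          rw [hG ω h, Finset.mul_sum]
          congr 1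
          refine Finset.sum_congr rfl fun j _ => ?_
          by_cases h1 : F i ω
          · by_cases h2 : i ≤ j ∧ g j ω = g i ω ∧ b2 j ω
            · rw [if_pos h1, if_pos h2, if_pos ⟨h1, h2⟩, one_mul, mul_one]
            · rw [if_neg h2, if_neg (show ¬ (F i ω ∧ i ≤ j ∧ g j ω = g i ω ∧ b2 j ω) from
                fun h => h2 h.2), mul_zero, mul_zero]
          · rw [if_neg h1, if_neg (show ¬ (F i ω ∧ i ≤ j ∧ g j ω = g i ω ∧ b2 j ω) from
              fun h => h1 h.1), zero_mul, mul_zero]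
      rw [e2, Ex_sum p (range n) (fun j ω =>
        a₂ * (if F i ω ∧ i ≤ j ∧ g j ω = g i ω ∧ b2 j ω then (1 : ℝ) else 0)), Finset.sum_mul]
      refine Finset.sum_congr rfl fun j _ => ?_
      rw [Ex_smul, Pr_ex, mul_comm]
    rw [e1, ← HBL.tower h0 (A i) G f, Pr_ex, mul_comm, ← Ex_smul]
    refine Ex_mono h0 fun ω hω => ?_
    rw [hG ω hω]
    by_cases h : F i ω
    · rw [if_pos h, one_mul, mul_one]
      exact key ω hω h
    · rw [if_neg h, zero_mul, mul_zero]
  -- assembly
  have hPr0 : ∀ P : Ω → Prop, 0 ≤ Pr p {ω | P ω} := fun P => by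
    rw [Pr_ex]
    exact Ex_nonneg h0 fun ω _ => by split_ifs <;> norm_num
  have hfirst : (∑ i ∈ range n, Pr p {ω | F i ω}) * a₁ ≤ 2 * h₁ := by
    have h1 := part1 0
    have h2 := part1 1
    have h3 : ∀ i, Pr p {ω | F i ω} =
        Pr p {ω | F i ω ∧ g i ω % 2 = 0} + Pr p {ω | F i ω ∧ g i ω % 2 = 1} := by
      intro i
      rw [Pr_ex, Pr_ex, Pr_ex, ← Ex_add]
      refine Finset.sum_congr rfl fun ω _ => ?_
      congr 1
      rcases Nat.mod_two_eq_zero_or_one (g i ω) with h | h <;> by_cases h' : F i ω <;> simp [h, h']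
    rw [Finset.sum_congr rfl fun i _ => h3 i, Finset.sum_add_distrib, add_mul]
    linarith
  have hpt : ∀ j ∈ range n, Pr p {ω | A j ω ≠ none ∧ a₁ < vmi p (A j) o₁ (E₁ j) ω ∧
      a₂ < vmi p (A j) (o₂ (g j ω)) (E₂ j) ω} ≤
      ∑ i ∈ range n, Pr p {ω | F i ω ∧ i ≤ j ∧ g j ω = g i ω ∧ b2 j ω} := by
    intro j hj
    rw [mem_range] at hj
    have e1 : ∑ i ∈ range n, Pr p {ω | F i ω ∧ i ≤ j ∧ g j ω = g i ω ∧ b2 j ω} =
        Ex p (fun ω => ∑ i ∈ range n,
          if F i ω ∧ i ≤ j ∧ g j ω = g i ω ∧ b2 j ω then (1 : ℝ) else 0) := by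
      rw [Ex_sum p (range n) (fun i ω =>
        if F i ω ∧ i ≤ j ∧ g j ω = g i ω ∧ b2 j ω then (1 : ℝ) else 0)]
      exact Finset.sum_congr rfl fun i _ => Pr_ex p _
    rw [e1, Pr_ex]
    refine Ex_mono h0 fun ω hω => ?_
    by_cases hb : A j ω ≠ none ∧ a₁ < vmi p (A j) o₁ (E₁ j) ω ∧
      a₂ < vmi p (A j) (o₂ (g j ω)) (E₂ j) ω
    · rw [if_pos hb]
      -- the first bad row of the run
      have hex : ∃ i, i ≤ j ∧ g i ω = g j ω ∧ b1 i ω := ⟨j, le_rfl, rfl, hb.1, hb.2.1⟩
      have hsp := Nat.find_spec hex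
      have hmin : ∀ i < Nat.find hex, ¬ (i ≤ j ∧ g i ω = g j ω ∧ b1 i ω) :=
        fun i hi => Nat.find_min hex hi
      have hFi : F (Nat.find hex) ω := by
        refine ⟨hsp.2.2, fun i hi _ hgi hbi => hmin i hi ⟨?_, hgi.trans hsp.2.1, hbi⟩⟩
        have := hsp.1
        omega
      have h1 : (if F (Nat.find hex) ω ∧ Nat.find hex ≤ j ∧ g j ω = g (Nat.find hex) ω ∧
          b2 j ω then (1 : ℝ) else 0) ≤
          ∑ i ∈ range n, if F i ω ∧ i ≤ j ∧ g j ω = g i ω ∧ b2 j ω then (1 : ℝ) else 0 :=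
        Finset.single_le_sum (f := fun i =>
          if F i ω ∧ i ≤ j ∧ g j ω = g i ω ∧ b2 j ω then (1 : ℝ) else 0)
          (fun i _ => by split_ifs <;> norm_num)
          (mem_range.2 (lt_of_le_of_lt hsp.1 hj))
      rwa [if_pos ⟨hFi, hsp.1, hsp.2.1.symm, hb.1, hb.2.2⟩] at h1
    · rw [if_neg hb]
      exact Finset.sum_nonneg fun i _ => by split_ifs <;> norm_num
  have hsum := Finset.sum_le_sum hpt
  rw [Finset.sum_comm] at hsum
  have h5 : ∑ i ∈ range n, ∑ j ∈ range n,
      Pr p {ω | F i ω ∧ i ≤ j ∧ g j ω = g i ω ∧ b2 j ω} ≤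
      ∑ i ∈ range n, Pr p {ω | F i ω} * (h₂ / a₂) := by
    refine Finset.sum_le_sum fun i hi => ?_
    have := part2 i (mem_range.1 hi)
    rw [← mul_div_assoc, le_div_iff₀ ha₂]
    exact this
  rw [← Finset.sum_mul] at h5
  have h6 : ∑ i ∈ range n, Pr p {ω | F i ω} ≤ 2 * (h₁ / a₁) := by
    rw [← mul_div_assoc, le_div_iff₀ ha₁]
    exact hfirst
  exact (hsum.trans h5).trans (mul_le_mul_of_nonneg_right h6 (by positivity))

end Pool.KX
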