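import Pool.Agent.H97.KAL.HBL

/-!
# Tiling with place dependent intervals

A refining chain of labels `V 0, V 1, ..`, rows `j < N` with deficits `0 ≤ D j ≤ 1`, intervals of
rows `[i, P)` which are good or not as a function of the value of `V i`, good intervals having mean
deficit at most `η (P - i)` given this value. If every row is, outside probability `e`, the last
row of a good interval, then the mean total deficit of the rows `< N` is at most
`(η / ε + 2 ε + e) N`. The intervals may depend on the place in any way; they may overlap.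
-/

set_option autoImplicit false

namespace Pool.KX

open Finset Real
open Pool.Agent.H49.Ent Pool.Agent.H32.Dense Pool.STK Pool.KAF Pool.KAL

/-- **Tiling, adapted form.** -/
def TILEStmt : Prop :=
  ∀ (Ω σ : Type) [Fintype Ω] (p : Ω → ℝ) (V : ℕ → Ω → σ) (D : ℕ → Ω → ℝ)
    (G : ℕ → ℕ → Ω → Prop) (N : ℕ) (η ε e : ℝ), IsLaw p → 0 ≤ η → 0 < ε → ε ≤ 1 / 2 →
    (∀ i, Det p (V (i + 1)) (V i)) → (∀ j ω, 0 < p ω → 0 ≤ D j ω ∧ D j ω ≤ 1) →
    (∀ i P ω ω', 0 < p ω → 0 < p ω' → V i ω = V i ω' → G i P ω → G i P ω') →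
    (∀ i P ω, i < P → P ≤ N → 0 < p ω → G i P ω →
      Ex (cond p (V i) (V i ω)) (fun v => ∑ j ∈ Ico i P, D j v) ≤ η * ((P : ℝ) - i)) →
    (∀ j < N, 1 - e ≤ Pr p {ω | ∃ i ≤ j, G i (j + 1) ω}) →
    Ex p (fun ω => ∑ j ∈ range N, D j ω) ≤ (η / ε + 2 * ε + e) * N

/-- **Tiling for a chain of labels** with at most `L` nats per step: if every step is, outside
probability `e`, the last step of a block which has rate at least `(1 - η) L` given the value of
the label at its beginning, then the chain is almost full. -/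
def TILHStmt : Prop :=
  ∀ (Ω σ : Type) [Fintype Ω] (p : Ω → ℝ) (V : ℕ → Ω → σ) (N : ℕ) (L η ε e : ℝ), IsLaw p → 0 < L →
    0 ≤ η → 0 < ε → ε ≤ 1 / 2 → (∀ i, Det p (V (i + 1)) (V i)) →
    (∀ i ω, 0 < p ω → hk p V i 1 ω ≤ L) →
    (∀ j < N, 1 - e ≤ Pr p {ω | ∃ i ≤ j, (1 - η) * L * ((j + 1 - i : ℕ) : ℝ) ≤
      hk p V i (j + 1 - i) ω}) →
    (1 - (η / ε + 2 * ε + e)) * L * N ≤ CH p (V N) (V 0)

namespace TILE

/-! ### The selection, for one sequence of places -/

open Classical in
/-- The end of the longest good interval which starts at `i`. -/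
noncomputable def mx (g : ℕ → ℕ → Prop) (N i : ℕ) : ℕ :=
  ((range (N + 1)).filter fun P => i < P ∧ g i P).sup id

/-- The interval `[i, mx i)` is selected if its new part is at least `ε` times its length. -/
def sel (g : ℕ → ℕ → Prop) (N : ℕ) (ε : ℝ) (i R : ℕ) : Prop :=
  R < mx g N i ∧ ε * ((mx g N i : ℝ) - i) ≤ (mx g N i : ℝ) - max (R : ℝ) i

open Classical in
/-- The end of the part covered by the selected intervals which start before `i`. -/
noncomputable def rr (g : ℕ → ℕ → Prop) (N : ℕ) (ε : ℝ) : ℕ → ℕ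
  | 0 => 0
  | i + 1 => if sel g N ε i (rr g N ε i) then mx g N i else rr g N ε i

open Classical in
/-- The potential. -/
noncomputable def ph (g : ℕ → ℕ → Prop) (N : ℕ) (ε : ℝ) : ℕ → ℝ
  | 0 => 0
  | j + 1 => if j < rr g N ε (j + 1) then ph g N ε j + 2 * ε else max (ph g N ε j - 1) 0

variable {g : ℕ → ℕ → Prop} {N : ℕ} {ε : ℝ}

lemma mx_le (g : ℕ → ℕ → Prop) (N i : ℕ) : mx g N i ≤ N := by
  classical
  unfold mx
  refine Finset.sup_le fun P hP => ?_
  have := (mem_filter.1 hP).1
  rw [mem_range] at this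
  change P ≤ N
  omega

lemma mx_good {i : ℕ} (h : 0 < mx g N i) : i < mx g N i ∧ g i (mx g N i) := by
  classical
  unfold mx at h ⊢
  have hne : ((range (N + 1)).filter fun P => i < P ∧ g i P).Nonempty := by
    by_contra hcon
    rw [Finset.not_nonempty_iff_eq_empty] at hcon
    rw [hcon] at h
    simp at h
  obtain ⟨P, hP, hP'⟩ := Finset.exists_mem_eq_sup _ hne id
  rw [hP']
  exact (mem_filter.1 hP).2

lemma le_mx {i P : ℕ} (h1 : i < P) (h2 : P ≤ N) (h3 : g i P) : P ≤ mx g N i := by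
  classical
  unfold mx
  exact Finset.le_sup (f := id) (mem_filter.2 ⟨mem_range.2 (by omega), h1, h3⟩)

lemma rr_succ_le (g : ℕ → ℕ → Prop) (N : ℕ) (ε : ℝ) (i : ℕ) :
    rr g N ε i ≤ rr g N ε (i + 1) := by
  classical
  change rr g N ε i ≤ if sel g N ε i (rr g N ε i) then mx g N i else rr g N ε i
  split_ifs with h
  · exact h.1.le
  · exact le_rfl

lemma rr_mono (g : ℕ → ℕ → Prop) (N : ℕ) (ε : ℝ) : Monotone (rr g N ε) :=
  monotone_nat_of_le_succ (rr_succ_le g N ε)

lemma rr_le (g : ℕ → ℕ → Prop) (N : ℕ) (ε : ℝ) (i : ℕ) : rr g N ε i ≤ N := by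
  classical
  induction i with
  | zero => exact Nat.zero_le _
  | succ i ih =>
    change (if sel g N ε i (rr g N ε i) then mx g N i else rr g N ε i) ≤ N
    split_ifs with h
    · exact mx_le g N i
    · exact ih

lemma rr_sel {i : ℕ} (h : sel g N ε i (rr g N ε i)) : rr g N ε (i + 1) = mx g N i := by
  classical
  change (if sel g N ε i (rr g N ε i) then mx g N i else rr g N ε i) = _
  rw [if_pos h]

open Classical in
/-- The total length of the selected intervals. -/
lemma sum_sel (g : ℕ → ℕ → Prop) (N : ℕ) (ε : ℝ) (n : ℕ) :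
    ∑ i ∈ range n, (if sel g N ε i (rr g N ε i) then ε * ((mx g N i : ℝ) - i) else 0) ≤
      (rr g N ε n : ℝ) := by
  induction n with
  | zero => simp [rr]
  | succ n ih =>
    rw [Finset.sum_range_succ]
    have h1 : (rr g N ε n : ℝ) ≤ (rr g N ε (n + 1) : ℝ) := by
      exact_mod_cast rr_succ_le g N ε n
    split_ifs with h
    · rw [rr_sel h]
      have h2 := h.2
      have h3 := le_max_left (rr g N ε n : ℝ) (n : ℝ)
      linarith
    · linarith

lemma exists_sel {n : ℕ} (h : 0 < rr g N ε n) :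
    ∃ K < n, sel g N ε K (rr g N ε K) ∧ mx g N K = rr g N ε n := by
  classical
  induction n with
  | zero => exact absurd h (by simp [rr])
  | succ n ih =>
    by_cases hs : sel g N ε n (rr g N ε n)
    · exact ⟨n, by omega, hs, (rr_sel hs).symm⟩
    · have h1 : rr g N ε (n + 1) = rr g N ε n := by
        change (if sel g N ε n (rr g N ε n) then mx g N n else rr g N ε n) = _
        rw [if_neg hs]
      rw [h1] at h ⊢
      obtain ⟨K, hK, h2, h3⟩ := ih h
      exact ⟨K, by omega, h2, h3⟩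

lemma ph_cov {j : ℕ} (h : j < rr g N ε (j + 1)) : ph g N ε (j + 1) = ph g N ε j + 2 * ε := by
  classical
  change (if j < rr g N ε (j + 1) then ph g N ε j + 2 * ε else max (ph g N ε j - 1) 0) = _
  rw [if_pos h]

lemma ph_unc {j : ℕ} (h : ¬ j < rr g N ε (j + 1)) :
    ph g N ε (j + 1) = max (ph g N ε j - 1) 0 := by
  classical
  change (if j < rr g N ε (j + 1) then ph g N ε j + 2 * ε else max (ph g N ε j - 1) 0) = _
  rw [if_neg h]

lemma ph_nonneg (hε : 0 < ε) (j : ℕ) : 0 ≤ ph g N ε j := by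
  induction j with
  | zero => exact le_rfl
  | succ j ih =>
    by_cases h : j < rr g N ε (j + 1)
    · rw [ph_cov h]
      linarith
    · rw [ph_unc h]
      exact le_max_right _ _

lemma ph_run (hε : 0 < ε) {i a : ℕ} (hia : i ≤ a)
    (h : ∀ k, i ≤ k → k < a → k < rr g N ε (k + 1)) : 2 * ε * ((a : ℝ) - i) ≤ ph g N ε a := by
  induction a with
  | zero =>
    have : i = 0 := by omega
    subst this
    simpa using ph_nonneg (g := g) (N := N) hε 0
  | succ a ih =>
    rcases Nat.lt_or_ge a i with h1 | h1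
    · have h2 : i = a + 1 := by omega
      rw [h2]
      simpa using ph_nonneg (g := g) (N := N) hε (a + 1)
    · have h2 := ih h1 fun k hk hk' => h k hk (by omega)
      rw [ph_cov (h a h1 (by omega))]
      push_cast
      linarith

lemma ph_drop (hε : 0 < ε) {a j : ℕ} (haj : a ≤ j) :
    ph g N ε a - ((j : ℝ) - a) ≤ ph g N ε j := by
  induction j with
  | zero =>
    have : a = 0 := by omega
    subst this
    simp
  | succ j ih =>
    rcases Nat.lt_or_ge j a with h1 | h1
    · have h2 : a = j + 1 := by omega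
      rw [h2]
      simp
    · have h2 := ih h1
      have h3 : ph g N ε j - 1 ≤ ph g N ε (j + 1) := by
        by_cases h : j < rr g N ε (j + 1)
        · rw [ph_cov h]
          linarith
        · rw [ph_unc h]
          exact le_max_left _ _
      push_cast
      linarith

/-- At the last row of a good interval which is not covered the potential is at least `1`. -/
lemma one_le_ph (hε : 0 < ε) (hε2 : ε ≤ 1 / 2) {i j : ℕ} (hij : i ≤ j) (hj : j < N)
    (hg : g i (j + 1)) (hu : ¬ j < rr g N ε (j + 1)) : 1 ≤ ph g N ε j := by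
  have h1 : j + 1 ≤ mx g N i := le_mx (by omega) (by omega) hg
  have h2 : rr g N ε i ≤ j := (rr_mono g N ε (by omega)).trans (not_lt.1 hu)
  have h3 : ¬ sel g N ε i (rr g N ε i) := by
    intro hs
    have h4 : rr g N ε (i + 1) ≤ rr g N ε (j + 1) := rr_mono g N ε (by omega)
    rw [rr_sel hs] at h4
    omega
  have h4 : (mx g N i : ℝ) - max (rr g N ε i : ℝ) i < ε * ((mx g N i : ℝ) - i) := by
    by_contra hcon
    exact h3 ⟨by omega, not_lt.1 hcon⟩
  have hm : ((j : ℝ) + 1) ≤ mx g N i := by exact_mod_cast h1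
  have hij' : (i : ℝ) ≤ j := by exact_mod_cast hij
  rcases Nat.lt_or_ge i (rr g N ε i) with h5 | h5
  · have h6 : max (rr g N ε i : ℝ) i = rr g N ε i := max_eq_left (by exact_mod_cast h5.le)
    rw [h6] at h4
    have h7 : 2 * ε * ((rr g N ε i : ℝ) - i) ≤ ph g N ε (rr g N ε i) :=
      ph_run hε h5.le fun k hk hk' => hk'.trans_le (rr_mono g N ε (by omega))
    have h8 := ph_drop (g := g) (N := N) hε h2
    have h9 : 0 ≤ (mx g N i : ℝ) - rr g N ε i := by
      have : (rr g N ε i : ℝ) ≤ j := by exact_mod_cast h2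
      linarith
    have h10 : ε * ((mx g N i : ℝ) - rr g N ε i) ≤ 1 / 2 * ((mx g N i : ℝ) - rr g N ε i) :=
      mul_le_mul_of_nonneg_right hε2 h9
    nlinarith
  · exfalso
    have h6 : max (rr g N ε i : ℝ) i = i := max_eq_right (by exact_mod_cast h5)
    rw [h6] at h4
    nlinarith

open Classical in
/-- Few good rows stay uncovered. -/
lemma count (hε : 0 < ε) (hε2 : ε ≤ 1 / 2) {n : ℕ} (hn : n ≤ N) :
    ∑ j ∈ range n, (if (∃ i ≤ j, g i (j + 1)) ∧ ¬ j < rr g N ε (j + 1) then (1 : ℝ) else 0) +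
      ph g N ε n ≤ 2 * ε * n := by
  induction n with
  | zero => simp [ph]
  | succ n ih =>
    have h1 := ih (by omega)
    rw [Finset.sum_range_succ]
    push_cast
    by_cases h : n < rr g N ε (n + 1)
    · rw [if_neg (fun h' => h'.2 h), ph_cov h]
      linarith
    · by_cases hg : ∃ i ≤ n, g i (n + 1)
      · rw [if_pos ⟨hg, h⟩, ph_unc h]
        obtain ⟨i, hi, hg⟩ := hg
        have h2 := one_le_ph hε hε2 hi (by omega) hg h
        rw [max_eq_left (by linarith)]
        linarith
      · rw [if_neg (fun h' => hg h'.1), ph_unc h]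
        have h2 := ph_nonneg (g := g) (N := N) hε n
        have h3 : max (ph g N ε n - 1) 0 ≤ ph g N ε n := max_le (by linarith) h2
        linarith

open Classical in
/-- The deficits, for one sequence of places. -/
lemma det_bound (hε : 0 < ε) (hε2 : ε ≤ 1 / 2) {D : ℕ → ℝ} (h0 : ∀ j, 0 ≤ D j)
    (h1 : ∀ j, D j ≤ 1) :
    ∑ j ∈ range N, D j ≤
      ∑ i ∈ range N, (if sel g N ε i (rr g N ε i) then ∑ j ∈ Ico i (mx g N i), D j else 0) +
      2 * ε * N + ∑ j ∈ range N, (if ∃ i ≤ j, g i (j + 1) then (0 : ℝ) else 1) := by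
  have key : ∀ j ∈ range N, D j ≤
      (∑ i ∈ range N, (if sel g N ε i (rr g N ε i) ∧ j ∈ Ico i (mx g N i) then D j else 0)) +
      (if (∃ i ≤ j, g i (j + 1)) ∧ ¬ j < rr g N ε (j + 1) then (1 : ℝ) else 0) +
      (if ∃ i ≤ j, g i (j + 1) then (0 : ℝ) else 1) := by
    intro j hj
    rw [mem_range] at hj
    have hs0 : 0 ≤ ∑ i ∈ range N,
        (if sel g N ε i (rr g N ε i) ∧ j ∈ Ico i (mx g N i) then D j else 0) :=
      Finset.sum_nonneg fun i _ => by split_ifs <;> [exact h0 j; exact le_rfl]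
    by_cases hc : j < rr g N ε (j + 1)
    · obtain ⟨K, hK, hs, hm⟩ := exists_sel (g := g) (N := N) (ε := ε) (n := j + 1) (by omega)
      have h2 : (if sel g N ε K (rr g N ε K) ∧ j ∈ Ico K (mx g N K) then D j else 0) ≤
          ∑ i ∈ range N, (if sel g N ε i (rr g N ε i) ∧ j ∈ Ico i (mx g N i) then D j else 0) :=
        Finset.single_le_sum (f := fun i =>
          if sel g N ε i (rr g N ε i) ∧ j ∈ Ico i (mx g N i) then D j else 0)
          (fun i _ => by split_ifs <;> [exact h0 j; exact le_rfl])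
          (mem_range.2 (by omega))
      rw [if_pos ⟨hs, by rw [mem_Ico]; omega⟩] at h2
      have h3 : 0 ≤ (if (∃ i ≤ j, g i (j + 1)) ∧ ¬ j < rr g N ε (j + 1) then (1 : ℝ) else 0) := by
        split_ifs <;> norm_num
      have h4 : 0 ≤ (if ∃ i ≤ j, g i (j + 1) then (0 : ℝ) else 1) := by
        split_ifs <;> norm_num
      linarith
    · by_cases hg : ∃ i ≤ j, g i (j + 1)
      · rw [if_pos ⟨hg, hc⟩, if_pos hg]
        linarith [h1 j]
      · rw [if_neg (fun h' => hg h'.1), if_neg hg]
        linarith [h1 j]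
  have hsum := Finset.sum_le_sum key
  rw [Finset.sum_add_distrib, Finset.sum_add_distrib, Finset.sum_comm] at hsum
  have hsw : ∑ i ∈ range N, ∑ j ∈ range N,
      (if sel g N ε i (rr g N ε i) ∧ j ∈ Ico i (mx g N i) then D j else 0) =
      ∑ i ∈ range N, (if sel g N ε i (rr g N ε i) then ∑ j ∈ Ico i (mx g N i), D j else 0) := by
    refine Finset.sum_congr rfl fun i _ => ?_
    by_cases hs : sel g N ε i (rr g N ε i)
    · rw [if_pos hs]
      simp only [hs, true_and]
      rw [← Finset.sum_filter]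
      refine Finset.sum_congr ?_ fun _ _ => rfl
      ext j
      have := mx_le g N i
      rw [mem_filter, mem_range, mem_Ico]
      omega
    · rw [if_neg hs]
      exact Finset.sum_eq_zero fun j _ => if_neg (fun h' => hs h'.1)
  rw [hsw] at hsum
  have hcnt := count (g := g) (N := N) hε hε2 le_rfl
  have hph := ph_nonneg (g := g) (N := N) hε N
  linarith

/-! ### Dependence on the place -/

lemma mx_congr {g g' : ℕ → ℕ → Prop} {N i : ℕ} (h : ∀ P, g i P ↔ g' i P) :
    mx g N i = mx g' N i := by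
  classical
  unfold mx
  simp only [h]

lemma rr_congr {g g' : ℕ → ℕ → Prop} {N : ℕ} {ε : ℝ} {i : ℕ}
    (h : ∀ k < i, ∀ P, g k P ↔ g' k P) : rr g N ε i = rr g' N ε i := by
  classical
  induction i with
  | zero => rfl
  | succ i ih =>
    have h1 := ih fun k hk => h k (by omega)
    have h2 : mx g N i = mx g' N i := mx_congr (h i (by omega))
    change (if sel g N ε i (rr g N ε i) then mx g N i else rr g N ε i) =
      (if sel g' N ε i (rr g' N ε i) then mx g' N i else rr g' N ε i)
    unfold sel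
    rw [h1, h2]

end TILE

open TILE

theorem tile_thm : TILEStmt := by
  classical
  intro Ω σ _ p V D G N η ε e hp hη hε hε2 hV hD hG hgood hcov
  have h0 := hp.nonneg
  have hdet : ∀ k i, k ≤ i → Det p (V i) (V k) := by
    intro k i hki
    obtain ⟨l, rfl⟩ := Nat.exists_eq_add_of_le hki
    exact HBL.det_add hV k l
  -- truncated deficits, which are bounded everywhere
  set D' : ℕ → Ω → ℝ := fun j ω => if 0 < p ω then D j ω else 0 with hD'
  have hD'0 : ∀ j ω, 0 ≤ D' j ω := by
    intro j ω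
    simp only [hD']
    split_ifs with h
    · exact (hD j ω h).1
    · exact le_rfl
  have hD'1 : ∀ j ω, D' j ω ≤ 1 := by
    intro j ω
    simp only [hD']
    split_ifs with h
    · exact (hD j ω h).2
    · norm_num
  have hExD : ∀ (s : Finset ℕ), Ex p (fun ω => ∑ j ∈ s, D j ω) = Ex p (fun ω => ∑ j ∈ s, D' j ω) := by
    intro s
    simp only [Ex]
    refine Finset.sum_congr rfl fun ω _ => ?_
    rcases (h0 ω).eq_or_lt with h | h
    · rw [← h, zero_mul, zero_mul]
    · simp only [hD', if_pos h]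
  rw [hExD]
  let gg : Ω → ℕ → ℕ → Prop := fun ω i P => G i P ω
  -- the selection at `i` is a function of the value of `V i`
  have hgg : ∀ i ω ω', 0 < p ω → 0 < p ω' → V i ω = V i ω' → ∀ k ≤ i, ∀ P,
      (gg ω k P ↔ gg ω' k P) := by
    intro i ω ω' hω hω' h k hk P
    have h1 : V k ω = V k ω' := hdet k i hk ω ω' hω hω' h
    exact ⟨hG k P ω ω' hω hω' h1, hG k P ω' ω hω' hω h1.symm⟩
  have hsel : ∀ i ω ω', 0 < p ω → 0 < p ω' → V i ω = V i ω' →
      mx (gg ω) N i = mx (gg ω') N i ∧
      (sel (gg ω) N ε i (rr (gg ω) N ε i) ↔ sel (gg ω') N ε i (rr (gg ω') N ε i)) := by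
    intro i ω ω' hω hω' h
    have h1 := hgg i ω ω' hω hω' h
    have h2 : mx (gg ω) N i = mx (gg ω') N i := mx_congr (h1 i le_rfl)
    have h3 : rr (gg ω) N ε i = rr (gg ω') N ε i := rr_congr fun k hk => h1 k hk.le
    refine ⟨h2, ?_⟩
    unfold sel
    rw [h2, h3]
  -- the mean deficit of the selected intervals
  have hmain : ∀ i ∈ range N, Ex p (fun ω => if sel (gg ω) N ε i (rr (gg ω) N ε i) then
      ∑ j ∈ Ico i (mx (gg ω) N i), D' j ω else 0) ≤
      Ex p (fun ω => η / ε * (if sel (gg ω) N ε i (rr (gg ω) N ε i) then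
        ε * ((mx (gg ω) N i : ℝ) - i) else 0)) := by
    intro i _
    -- split according to the end of the interval
    have hsplit : ∀ ω, (if sel (gg ω) N ε i (rr (gg ω) N ε i) then
        ∑ j ∈ Ico i (mx (gg ω) N i), D' j ω else 0) =
        ∑ P ∈ range (N + 1), (if sel (gg ω) N ε i (rr (gg ω) N ε i) ∧ mx (gg ω) N i = P then
          (1 : ℝ) else 0) * ∑ j ∈ Ico i P, D' j ω := by
      intro ω
      refine Eq.trans ?_ (Finset.sum_eq_single (mx (gg ω) N i) ?_ ?_).symm
      · by_cases hs : sel (gg ω) N ε i (rr (gg ω) N ε i)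
        · rw [if_pos hs, if_pos ⟨hs, rfl⟩, one_mul]
        · rw [if_neg hs, if_neg (fun h' => hs h'.1), zero_mul]
      · intro P _ hP
        rw [if_neg (fun h => hP h.2.symm), zero_mul]
      · intro h
        exact absurd (mem_range.2 (Nat.lt_succ_of_le (mx_le (gg ω) N i))) h
    have hsplit2 : ∀ ω, η / ε * (if sel (gg ω) N ε i (rr (gg ω) N ε i) then
        ε * ((mx (gg ω) N i : ℝ) - i) else 0) =
        ∑ P ∈ range (N + 1), (if sel (gg ω) N ε i (rr (gg ω) N ε i) ∧ mx (gg ω) N i = P then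
          (1 : ℝ) else 0) * (η * ((P : ℝ) - i)) := by
      intro ω
      refine Eq.trans ?_ (Finset.sum_eq_single (mx (gg ω) N i) ?_ ?_).symm
      · by_cases hs : sel (gg ω) N ε i (rr (gg ω) N ε i)
        · rw [if_pos hs, if_pos ⟨hs, rfl⟩, one_mul]
          field_simp
        · rw [if_neg hs, if_neg (fun h' => hs h'.1), zero_mul, mul_zero]
      · intro P _ hP
        rw [if_neg (fun h => hP h.2.symm), zero_mul]
      · intro h
        exact absurd (mem_range.2 (Nat.lt_succ_of_le (mx_le (gg ω) N i))) h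
    have e1 : Ex p (fun ω => if sel (gg ω) N ε i (rr (gg ω) N ε i) then
        ∑ j ∈ Ico i (mx (gg ω) N i), D' j ω else 0) =
        ∑ P ∈ range (N + 1), Ex p (fun ω => (if sel (gg ω) N ε i (rr (gg ω) N ε i) ∧
          mx (gg ω) N i = P then (1 : ℝ) else 0) * ∑ j ∈ Ico i P, D' j ω) := by
      simp only [Ex]
      rw [Finset.sum_comm]
      refine Finset.sum_congr rfl fun ω _ => ?_
      rw [hsplit ω, Finset.mul_sum]
    have e2 : Ex p (fun ω => η / ε * (if sel (gg ω) N ε i (rr (gg ω) N ε i) then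
        ε * ((mx (gg ω) N i : ℝ) - i) else 0)) =
        ∑ P ∈ range (N + 1), Ex p (fun ω => (if sel (gg ω) N ε i (rr (gg ω) N ε i) ∧
          mx (gg ω) N i = P then (1 : ℝ) else 0) * (η * ((P : ℝ) - i))) := by
      simp only [Ex]
      rw [Finset.sum_comm]
      refine Finset.sum_congr rfl fun ω _ => ?_
      rw [hsplit2 ω, Finset.mul_sum]
    rw [e1, e2]
    refine Finset.sum_le_sum fun P hP => ?_
    rw [mem_range] at hP
    -- the indicator as a function of the value of `V i`
    let I : σ → ℝ := fun z => if ∃ ω', 0 < p ω' ∧ V i ω' = z ∧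
      (sel (gg ω') N ε i (rr (gg ω') N ε i) ∧ mx (gg ω') N i = P) then 1 else 0
    have hI : ∀ ω, 0 < p ω → (if sel (gg ω) N ε i (rr (gg ω) N ε i) ∧ mx (gg ω) N i = P then
        (1 : ℝ) else 0) = I (V i ω) := by
      intro ω hω
      by_cases hs : sel (gg ω) N ε i (rr (gg ω) N ε i) ∧ mx (gg ω) N i = P
      · rw [if_pos hs]
        simp only [I]
        rw [if_pos ⟨ω, hω, rfl, hs⟩]
      · rw [if_neg hs]
        simp only [I]
        rw [if_neg]
        rintro ⟨ω', hω', h1, h2⟩
        obtain ⟨h3, h4⟩ := hsel i ω ω' hω hω' h1.symm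
        exact hs ⟨h4.2 h2.1, h3.trans h2.2⟩
    have c1 : Ex p (fun ω => (if sel (gg ω) N ε i (rr (gg ω) N ε i) ∧ mx (gg ω) N i = P then
        (1 : ℝ) else 0) * ∑ j ∈ Ico i P, D' j ω) =
        Ex p (fun ω => I (V i ω) * ∑ j ∈ Ico i P, D' j ω) := by
      simp only [Ex]
      refine Finset.sum_congr rfl fun ω _ => ?_
      rcases (h0 ω).eq_or_lt with h | h
      · rw [← h, zero_mul, zero_mul]
      · rw [hI ω h]
    rw [c1, ← HBL.tower h0 (V i) I (fun ω => ∑ j ∈ Ico i P, D' j ω)]
    refine Ex_mono h0 fun ω hω => ?_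
    rw [hI ω hω]
    by_cases hs : sel (gg ω) N ε i (rr (gg ω) N ε i) ∧ mx (gg ω) N i = P
    · rw [← hI ω hω, if_pos hs, one_mul, one_mul]
      have hpos : 0 < mx (gg ω) N i := lt_of_le_of_lt (Nat.zero_le _) hs.1.1
      obtain ⟨g1, g2⟩ := mx_good hpos
      rw [hs.2] at g1 g2
      have h5 := hgood i P ω g1 (by omega) hω g2
      have h6 : Ex (cond p (V i) (V i ω)) (fun v => ∑ j ∈ Ico i P, D' j v) =
          Ex (cond p (V i) (V i ω)) (fun v => ∑ j ∈ Ico i P, D j v) := by
        simp only [Ex]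
        refine Finset.sum_congr rfl fun v _ => ?_
        rcases (cond_nonneg h0 (V i) (V i ω) v).eq_or_lt with h | h
        · rw [← h, zero_mul, zero_mul]
        · have h7 := ((cond_pos_iff h0 _ _ v).1 h).1
          simp only [hD', if_pos h7]
      rw [h6]
      exact h5
    · rw [← hI ω hω, if_neg hs, zero_mul, zero_mul]
  -- sum over the places
  have hpt : ∀ ω, ∑ j ∈ range N, D' j ω ≤
      ∑ i ∈ range N, (if sel (gg ω) N ε i (rr (gg ω) N ε i) then
        ∑ j ∈ Ico i (mx (gg ω) N i), D' j ω else 0) +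
      2 * ε * N + ∑ j ∈ range N, (if ∃ i ≤ j, gg ω i (j + 1) then (0 : ℝ) else 1) := fun ω =>
    det_bound (g := gg ω) (N := N) hε hε2 (fun j => hD'0 j ω) (fun j => hD'1 j ω)
  have hE : Ex p (fun ω => ∑ j ∈ range N, D' j ω) ≤
      Ex p (fun ω => ∑ i ∈ range N, (if sel (gg ω) N ε i (rr (gg ω) N ε i) then
        ∑ j ∈ Ico i (mx (gg ω) N i), D' j ω else 0) +
      2 * ε * N + ∑ j ∈ range N, (if ∃ i ≤ j, gg ω i (j + 1) then (0 : ℝ) else 1)) :=
    Ex_mono h0 fun ω _ => hpt ω
  rw [Ex_add (f := fun ω => ∑ i ∈ range N, (if sel (gg ω) N ε i (rr (gg ω) N ε i) then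
        ∑ j ∈ Ico i (mx (gg ω) N i), D' j ω else 0) + 2 * ε * N),
    Ex_add (f := fun ω => ∑ i ∈ range N, (if sel (gg ω) N ε i (rr (gg ω) N ε i) then
        ∑ j ∈ Ico i (mx (gg ω) N i), D' j ω else 0)), Ex_const hp.sum_one] at hE
  have hs1 : Ex p (fun ω => ∑ i ∈ range N, (if sel (gg ω) N ε i (rr (gg ω) N ε i) then
        ∑ j ∈ Ico i (mx (gg ω) N i), D' j ω else 0)) ≤ η / ε * N := by
    have t1 : Ex p (fun ω => ∑ i ∈ range N, (if sel (gg ω) N ε i (rr (gg ω) N ε i) then
        ∑ j ∈ Ico i (mx (gg ω) N i), D' j ω else 0)) =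
        ∑ i ∈ range N, Ex p (fun ω => if sel (gg ω) N ε i (rr (gg ω) N ε i) then
          ∑ j ∈ Ico i (mx (gg ω) N i), D' j ω else 0) := by
      simp only [Ex]
      rw [Finset.sum_comm]
      refine Finset.sum_congr rfl fun ω _ => ?_
      rw [Finset.mul_sum]
    have t2 : ∑ i ∈ range N, Ex p (fun ω => η / ε * (if sel (gg ω) N ε i (rr (gg ω) N ε i) then
        ε * ((mx (gg ω) N i : ℝ) - i) else 0)) =
        Ex p (fun ω => η / ε * ∑ i ∈ range N, (if sel (gg ω) N ε i (rr (gg ω) N ε i) then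
          ε * ((mx (gg ω) N i : ℝ) - i) else 0)) := by
      simp only [Ex]
      rw [Finset.sum_comm]
      refine Finset.sum_congr rfl fun ω _ => ?_
      rw [← Finset.mul_sum, ← Finset.mul_sum]
    rw [t1]
    refine (Finset.sum_le_sum hmain).trans ?_
    rw [t2]
    have t3 : Ex p (fun ω => η / ε * ∑ i ∈ range N, (if sel (gg ω) N ε i (rr (gg ω) N ε i) then
          ε * ((mx (gg ω) N i : ℝ) - i) else 0)) ≤ Ex p (fun _ => η / ε * N) := by
      refine Ex_mono h0 fun ω _ => mul_le_mul_of_nonneg_left ?_ (by positivity)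
      refine (sum_sel (gg ω) N ε N).trans ?_
      exact_mod_cast rr_le (gg ω) N ε N
    rwa [Ex_const hp.sum_one] at t3
  have hs2 : Ex p (fun ω => ∑ j ∈ range N, (if ∃ i ≤ j, gg ω i (j + 1) then (0 : ℝ) else 1)) ≤
      e * N := by
    have t1 : Ex p (fun ω => ∑ j ∈ range N, (if ∃ i ≤ j, gg ω i (j + 1) then (0 : ℝ) else 1)) =
        ∑ j ∈ range N, Ex p (fun ω => if ∃ i ≤ j, gg ω i (j + 1) then (0 : ℝ) else 1) := by
      simp only [Ex]
      rw [Finset.sum_comm]
      refine Finset.sum_congr rfl fun ω _ => ?_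
      rw [Finset.mul_sum]
    rw [t1]
    have t2 : ∀ j ∈ range N, Ex p (fun ω => if ∃ i ≤ j, gg ω i (j + 1) then (0 : ℝ) else 1) ≤ e := by
      intro j hj
      have h1 := hcov j (mem_range.1 hj)
      have h2 : Ex p (fun ω => if ∃ i ≤ j, gg ω i (j + 1) then (0 : ℝ) else 1) +
          Pr p {ω | ∃ i ≤ j, G i (j + 1) ω} = ∑ ω, p ω := by
        rw [CDF.Pr_eq]
        simp only [Ex]
        rw [← Finset.sum_add_distrib]
        refine Finset.sum_congr rfl fun ω _ => ?_
        by_cases h : ∃ i ≤ j, G i (j + 1) ω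
        · rw [if_pos (show ∃ i ≤ j, gg ω i (j + 1) from h),
            if_pos (show ω ∈ {ω | ∃ i ≤ j, G i (j + 1) ω} from h)]
          ring
        · rw [if_neg (show ¬ ∃ i ≤ j, gg ω i (j + 1) from h),
            if_neg (show ω ∉ {ω | ∃ i ≤ j, G i (j + 1) ω} from h)]
          ring
      rw [hp.sum_one] at h2
      linarith
    refine (Finset.sum_le_sum t2).trans ?_
    rw [Finset.sum_const, card_range, nsmul_eq_mul]
    linarith
  linarith

theorem tilh_thm : TILHStmt := by
  classical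
  intro Ω σ _ p V N L η ε e hp hL hη hε hε2 hV hVL hcov
  have h0 := hp.nonneg
  have hsum : ∀ i P, i ≤ P → ∀ ω, 0 < p ω → hk p V i (P - i) ω =
      Ex (cond p (V i) (V i ω)) (fun v => ∑ j ∈ Ico i P, hk p V j 1 v) := by
    intro i P hiP ω hω
    have h1 := HBL.hk_mul h0 hV i 1 (P - i) hω
    rw [mul_one] at h1
    rw [h1]
    congr 1
    funext v
    rw [Finset.sum_Ico_eq_sum_range]
    refine Finset.sum_congr rfl fun j _ => ?_
    rw [mul_one]
  have hT := tile_thm Ω σ p V (fun j ω => 1 - hk p V j 1 ω / L)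
    (fun i P ω => (1 - η) * L * ((P - i : ℕ) : ℝ) ≤ hk p V i (P - i) ω) N η ε e hp hη hε hε2 hV
    (by
      intro j ω hω
      have h1 := HBL.hk_nonneg h0 V j 1 hω
      have h2 := hVL j ω hω
      have h3 : hk p V j 1 ω / L ≤ 1 := by
        rw [div_le_one hL]
        exact h2
      have h4 : 0 ≤ hk p V j 1 ω / L := by positivity
      constructor <;> linarith)
    (by
      intro i P ω ω' _ _ h hG
      have h1 : hk p V i (P - i) ω' = hk p V i (P - i) ω := by
        unfold hk
        rw [h]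
      rw [h1]
      exact hG)
    (by
      intro i P ω hiP _ hω hG
      have h1 := hsum i P hiP.le ω hω
      have hq := cond_nonneg h0 (V i) (V i ω)
      have hq1 := sum_cond p (V i) (law_pos h0 (V i) hω).ne'
      have h2 : Ex (cond p (V i) (V i ω)) (fun v => ∑ j ∈ Ico i P, (1 - hk p V j 1 v / L)) =
          ((P : ℝ) - i) - hk p V i (P - i) ω / L := by
        have h3 : ∀ v, ∑ j ∈ Ico i P, (1 - hk p V j 1 v / L) =
            ((P : ℝ) - i) - (∑ j ∈ Ico i P, hk p V j 1 v) * (1 / L) := by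
          intro v
          rw [Finset.sum_sub_distrib, Finset.sum_const, Nat.card_Ico, nsmul_eq_mul, mul_one,
            Nat.cast_sub hiP.le, Finset.sum_mul]
          congr 1
          refine Finset.sum_congr rfl fun j _ => ?_
          ring
        simp only [h3]
        rw [h1]
        simp only [Ex]
        have h4 : ∀ v, cond p (V i) (V i ω) v * (((P : ℝ) - i) -
            (∑ j ∈ Ico i P, hk p V j 1 v) * (1 / L)) =
            ((P : ℝ) - i) * cond p (V i) (V i ω) v -
            (cond p (V i) (V i ω) v * ∑ j ∈ Ico i P, hk p V j 1 v) * (1 / L) := by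
          intro v
          ring
        simp only [h4]
        rw [Finset.sum_sub_distrib, ← Finset.mul_sum, hq1, ← Finset.sum_mul]
        ring
      rw [h2]
      rw [Nat.cast_sub hiP.le] at hG
      have h5 : (1 - η) * ((P : ℝ) - i) ≤ hk p V i (P - i) ω / L := by
        rw [le_div_iff₀ hL]
        linarith
      linarith)
    (by
      intro j hj
      exact hcov j hj)
  have hend : CH p (V N) (V 0) = Ex p (fun ω => ∑ j ∈ range N, hk p V j 1 ω) := by
    have h1 := CDF.Ex_H h0 (V N) (V 0)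
    rw [← h1]
    have h2 : Ex p (fun ω => H (cond p (V 0) (V 0 ω)) (V N)) =
        Ex p (fun ω => (1 : ℝ) * Ex (cond p (V 0) (V 0 ω))
          (fun v => ∑ j ∈ range N, hk p V j 1 v)) := by
      simp only [Ex]
      refine Finset.sum_congr rfl fun ω _ => ?_
      rcases (h0 ω).eq_or_lt with h | h
      · rw [← h, zero_mul, zero_mul]
      · have h3 := hsum 0 N (Nat.zero_le _) ω h
        have h4 : hk p V 0 (N - 0) ω = H (cond p (V 0) (V 0 ω)) (V N) := by
          unfold hk
          rw [Nat.sub_zero, Nat.zero_add]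
        rw [h4, ← Finset.range_eq_Ico] at h3
        rw [h3, one_mul]
        rfl
    rw [h2]
    have h5 := HBL.tower h0 (V 0) (fun _ => (1 : ℝ)) (fun v => ∑ j ∈ range N, hk p V j 1 v)
    rw [h5]
    simp only [one_mul]
  have hE : Ex p (fun ω => ∑ j ∈ range N, (1 - hk p V j 1 ω / L)) =
      N - CH p (V N) (V 0) / L := by
    rw [hend]
    have h3 : ∀ ω, ∑ j ∈ range N, (1 - hk p V j 1 ω / L) =
        (N : ℝ) - (∑ j ∈ range N, hk p V j 1 ω) * (1 / L) := by
      intro ω
      rw [Finset.sum_sub_distrib, Finset.sum_const, card_range, nsmul_eq_mul, mul_one,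
        Finset.sum_mul]
      congr 1
      refine Finset.sum_congr rfl fun j _ => ?_
      ring
    simp only [h3]
    simp only [Ex]
    have h4 : ∀ ω, p ω * ((N : ℝ) - (∑ j ∈ range N, hk p V j 1 ω) * (1 / L)) =
        (N : ℝ) * p ω - (p ω * ∑ j ∈ range N, hk p V j 1 ω) * (1 / L) := by
      intro ω
      ring
    simp only [h4]
    rw [Finset.sum_sub_distrib, ← Finset.mul_sum, hp.sum_one, ← Finset.sum_mul]
    ring
  rw [hE] at hT
  have h6 : (1 - (η / ε + 2 * ε + e)) * N ≤ CH p (V N) (V 0) / L := by linarith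
  rw [le_div_iff₀ hL] at h6
  linarith

end Pool.KX
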